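import Pool.Agent.TH310.JS.Grow

set_option autoImplicit false

/-! Assembly of the potential. -/

namespace Pool.Agent.TH310.JS

open MeasureTheory Filter Set Topology
open Pool.Agent.H508R3.SC Pool.Agent.H116R3.SC8

/-- infinite concatenation of words -/
theorem concat (B : ℝ) (hB : 0 ≤ B) (P : List ℝ → List ℝ → ℕ → Prop)
    (step : ∀ (W : List ℝ), (∀ b ∈ W, |b| ≤ B) → ∀ j : ℕ, ∃ X : List ℝ,
      (∀ b ∈ X, |b| ≤ B) ∧ P W X j) :
    ∃ (b : ℕ → ℝ) (W X : ℕ → List ℝ), (∀ n, |b n| ≤ B) ∧ (∀ j, P (W j) (X j) j) ∧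
      (∀ j, j ≤ (W j).length) ∧
      ∀ j t, t ≤ (X j).length → (List.range ((W j).length + t)).map b = W j ++ (X j).take t := by
  classical
  let Wd := {W : List ℝ // ∀ b ∈ W, |b| ≤ B}
  choose X hXb hXP using fun (W : Wd) (j : ℕ) => step W.1 W.2 j
  have hnext : ∀ (W : Wd) (j : ℕ), ∀ b ∈ W.1 ++ (X W j ++ [0]), |b| ≤ B := by
    intro W j b hb
    rcases List.mem_append.1 hb with h | h
    · exact W.2 b h
    rcases List.mem_append.1 h with h | h
    · exact hXb W j b h
    · rw [List.mem_singleton.1 h, abs_zero]; exact hB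
  let S : ℕ → Wd := fun j => Nat.rec (motive := fun _ => Wd) ⟨[], by simp⟩
    (fun j W => ⟨W.1 ++ (X W j ++ [0]), hnext W j⟩) j
  have hS : ∀ j, (S (j + 1)).1 = (S j).1 ++ (X (S j) j ++ [0]) := fun j => rfl
  have hpre : ∀ j k, j ≤ k → (S j).1 <+: (S k).1 := by
    intro j k hjk
    induction k, hjk using Nat.le_induction with
    | base => exact List.prefix_refl _
    | succ k _ ih =>
      rw [hS]
      exact ih.trans (List.prefix_append _ _)
  have hlen : ∀ j, j ≤ (S j).1.length := by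
    intro j
    induction j with
    | zero => exact Nat.zero_le _
    | succ j ih =>
      rw [hS]
      simp only [List.length_append, List.length_singleton]
      omega
  let b : ℕ → ℝ := fun n => (S (n + 1)).1.getD n 0
  have hpg : ∀ (l1 l2 : List ℝ) (i : ℕ), l1 <+: l2 → i < l1.length → l2.getD i 0 = l1.getD i 0 := by
    rintro l1 l2 i ⟨t, rfl⟩ hi
    exact List.getD_append _ _ _ _ hi
  have hb : ∀ j i, i < (S j).1.length → b i = (S j).1.getD i 0 := by
    intro j i hi
    rcases le_total j (i + 1) with h | h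
    · exact hpg _ _ i (hpre _ _ h) hi
    · exact (hpg _ _ i (hpre _ _ h) (by have := hlen (i + 1); omega)).symm
  have htake : ∀ j n, n ≤ (S j).1.length → (List.range n).map b = (S j).1.take n := by
    intro j n hn
    apply List.ext_getElem
    · simp only [List.length_map, List.length_range, List.length_take]
      omega
    · intro i h1 h2
      simp only [List.length_map, List.length_range] at h1
      rw [List.getElem_map, List.getElem_range, List.getElem_take, hb j i (by omega),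
        List.getD_eq_getElem _ _ (by omega)]
  refine ⟨b, fun j => (S j).1, fun j => X (S j) j, ?_, fun j => hXP (S j) j, hlen, ?_⟩
  · intro n
    have h1 : n < (S (n + 1)).1.length := by have := hlen (n + 1); omega
    change |(S (n + 1)).1.getD n 0| ≤ B
    rw [List.getD_eq_getElem _ _ h1]
    exact (S (n + 1)).2 _ (List.getElem_mem h1)
  · intro j t ht
    have ht' : t ≤ (X (S j) j).length := ht
    rw [htake (j + 1) ((S j).1.length + t) (by
      rw [hS]
      simp only [List.length_append, List.length_singleton]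
      omega), hS, List.take_length_add_append, List.take_append_of_le_length ht']

lemma Tw_shift (E s : ℝ) (w : List ℝ) : Tw (E + s) w = Tw E (w.map (fun b => b - s)) := by
  induction w with
  | nil => rfl
  | cons b w ih =>
    simp only [List.map_cons, Tw, ih]
    congr 2
    ring

lemma Th_bdd (w : List ℝ) : ∃ M : ℝ, ∀ θ ∈ TH, ns (Th θ w) ≤ M := by
  have hpi := Real.pi_pos
  have hsub : TH ⊆ Ioo (0 : ℝ) Real.pi := fun θ hθ => ⟨by linarith [hθ.1], by linarith [hθ.2]⟩
  have hc : ContinuousOn (fun θ => ns (Th θ w)) TH := by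
    unfold ns
    exact (((((Th_cont w 0 0).mono hsub).pow 2).add (((Th_cont w 0 1).mono hsub).pow 2)).add
      (((Th_cont w 1 0).mono hsub).pow 2)).add (((Th_cont w 1 1).mono hsub).pow 2)
  obtain ⟨M, hM⟩ := isCompact_Icc.exists_bound_of_continuousOn hc
  exact ⟨M, fun θ hθ => (le_abs_self _).trans (hM θ hθ)⟩

/-- the requirements at one stage -/
def Req (C : ℝ) (s : ℕ → ℝ) (W X : List ℝ) (j : ℕ) : Prop :=
  ∃ t1 ≤ X.length, ∃ t2 ≤ X.length,
    volume {E ∈ Icc (-(j : ℝ)) 2 | (Tw E (W ++ X.take t1)) 0 0 ^ 2 +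
      (Tw E (W ++ X.take t1)) 1 0 ^ 2 < j} ≤ ENNReal.ofReal ((1 / 2) ^ j) ∧
    volume {E ∈ Icc (-2) (j : ℝ) | (Tw E (W ++ X.take t2)) 0 0 ^ 2 +
      (Tw E (W ++ X.take t2)) 1 0 ^ 2 < j} ≤ ENNReal.ofReal ((1 / 2) ^ j) ∧
    volume {θ ∈ TH | ¬ ∃ t ≤ X.length, ∀ i k : Fin 2,
      |(Tw (2 * Real.cos θ + s j) (W ++ X.take t)) i k| ≤ C} ≤ ENNReal.ofReal ((1 / 2) ^ j)

lemma meas_col (W : List ℝ) : Measurable (fun E => ((Tw E W) 0 0, (Tw E W) 1 0)) :=
  (((Tw_cont W).matrix_elem 0 0).prodMk ((Tw_cont W).matrix_elem 1 0)).measurable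

lemma col_ne (W : List ℝ) (E : ℝ) : ((Tw E W) 0 0, (Tw E W) 1 0) ≠ (0 : ℝ × ℝ) := by
  intro h
  have h1 := Tw_det E W
  rw [Matrix.det_fin_two] at h1
  have h2 : (Tw E W) 0 0 = 0 := congrArg Prod.fst h
  have h3 : (Tw E W) 1 0 = 0 := congrArg Prod.snd h
  rw [h2, h3] at h1
  norm_num at h1

theorem step_ex (C1 : ℝ) (hU : Univ C1) (A : ℝ) (s : ℕ → ℝ) (hs : ∀ j, |s j| ≤ A)
    (W : List ℝ) (j : ℕ) :
    ∃ X : List ℝ, (∀ b ∈ X, |b| ≤ A + 11) ∧
      Req (4 * (1 + 1 / Real.sin (Real.pi / 8)) * (1 + C1)) s W X j := by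
  have hA : 0 ≤ A := (abs_nonneg _).trans (hs 0)
  obtain ⟨c1, h11, h12, l1, hl1⟩ := growthE _ (meas_col W) (col_ne W) j j ((1 / 2) ^ j)
    (by positivity)
  obtain ⟨c2, h21, h22, l2, hl2⟩ := growthE' _ (meas_col (W ++ List.replicate l1 c1))
    (col_ne (W ++ List.replicate l1 c1)) j j ((1 / 2) ^ j) (by positivity)
  set G1 : List ℝ := List.replicate l1 c1 with hG1
  set G2 : List ℝ := List.replicate l2 (-c2) with hG2
  obtain ⟨M, hM⟩ := Th_bdd (((W ++ G1) ++ G2).map (fun b => b - s j))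
  obtain ⟨U, hU1, hU2⟩ := hU M ((1 / 2) ^ j) (by positivity)
  set U' : List ℝ := U.map (fun b => b + s j) with hU'
  have hback : ∀ t, (U'.take t).map (fun b => b - s j) = U.take t := by
    intro t
    rw [hU', ← List.map_take, List.map_map]
    have : ((fun b : ℝ => b - s j) ∘ fun b => b + s j) = id := by
      ext x; simp
    rw [this, List.map_id]
  refine ⟨(G1 ++ G2) ++ U', ?_, G1.length, ?_, (G1 ++ G2).length, ?_, ?_, ?_, ?_⟩
  · intro b hb
    rcases List.mem_append.1 hb with h | h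
    · rcases List.mem_append.1 h with h | h
      · rw [hG1] at h
        rw [List.eq_of_mem_replicate h, abs_of_nonneg (by linarith)]
        linarith
      · rw [hG2] at h
        rw [List.eq_of_mem_replicate h, abs_neg, abs_of_nonneg (by linarith)]
        linarith
    · rw [hU', List.mem_map] at h
      obtain ⟨x, hx, rfl⟩ := h
      have h1 := hU1 x hx
      have h2 := hs j
      have h3 := abs_add_le x (s j)
      linarith
  · simp only [List.length_append]; omega
  · simp only [List.length_append]; omega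
  · refine (measure_mono ?_).trans hl1
    rintro E ⟨hE, h⟩
    refine ⟨hE, ?_⟩
    have e1 : ((G1 ++ G2) ++ U').take G1.length = G1 := by
      rw [List.append_assoc, List.take_left']
      rfl
    rw [e1, Tw_append, hG1, Tw_replicate] at h
    simp only [Matrix.mul_apply, Fin.sum_univ_two] at h
    exact h
  · refine (measure_mono ?_).trans hl2
    rintro E ⟨hE, h⟩
    refine ⟨hE, ?_⟩
    have e1 : ((G1 ++ G2) ++ U').take (G1 ++ G2).length = G1 ++ G2 := by
      rw [List.take_left']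
      rfl
    rw [e1, ← List.append_assoc, Tw_append, hG2, Tw_replicate] at h
    simp only [Matrix.mul_apply, Fin.sum_univ_two] at h
    exact h
  · refine (measure_mono ?_).trans hU2
    rintro θ ⟨hθ, h⟩
    refine ⟨hθ, fun hcon => h ?_⟩
    obtain ⟨t, ht, h1⟩ := hcon (Th θ (((W ++ G1) ++ G2).map (fun b => b - s j))) (Th_det θ _)
      (hM θ hθ)
    refine ⟨(G1 ++ G2).length + t, ?_, ?_⟩
    · simp only [List.length_append, hU', List.length_map]; omega
    · have e1 : ((G1 ++ G2) ++ U').take ((G1 ++ G2).length + t) = (G1 ++ G2) ++ U'.take t := by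
        rw [List.take_length_add_append]
      rw [e1, Tw_shift]
      have e2 : (W ++ ((G1 ++ G2) ++ U'.take t)).map (fun b => b - s j) =
          ((W ++ G1) ++ G2).map (fun b => b - s j) ++ U.take t := by
        rw [← hback t, ← List.map_append]
        congr 1
        simp only [List.append_assoc]
      rw [e2]
      apply Tw_bound hθ
      rw [Th_append]
      exact h1

theorem assembly (C1 : ℝ) (hU : Univ C1) (A : ℝ) (s : ℕ → ℝ) (hs : ∀ j, |s j| ≤ A) :
    ∃ (b : ℕ → ℝ) (n1 n2 : ℕ → ℕ), (∀ n, |b n| ≤ A + 11) ∧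
      (∀ᵐ E ∂(volume : Measure ℝ), E ≤ 2 → Tendsto (fun j => (Pool.Agent.H116R3.SC8.pT b E (n1 j)) 0 0 ^ 2 +
        (Pool.Agent.H116R3.SC8.pT b E (n1 j)) 1 0 ^ 2) atTop atTop) ∧
      (∀ᵐ E ∂(volume : Measure ℝ), -2 ≤ E → Tendsto (fun j => (Pool.Agent.H116R3.SC8.pT b E (n2 j)) 0 0 ^ 2 +
        (Pool.Agent.H116R3.SC8.pT b E (n2 j)) 1 0 ^ 2) atTop atTop) ∧
      (∀ᵐ θ ∂(volume : Measure ℝ), θ ∈ TH → ∀ᶠ j in atTop, ∃ n ≥ j, ∀ i k : Fin 2,
        |(Pool.Agent.H116R3.SC8.pT b (2 * Real.cos θ + s j) n) i k| ≤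
          4 * (1 + 1 / Real.sin (Real.pi / 8)) * (1 + C1)) := by
  have hA : 0 ≤ A := (abs_nonneg _).trans (hs 0)
  obtain ⟨b, W, X, hb, hP, hlen, hrange⟩ := concat (A + 11) (by linarith)
    (Req (4 * (1 + 1 / Real.sin (Real.pi / 8)) * (1 + C1)) s)
    (fun W _ j => step_ex C1 hU A s hs W j)
  choose t1 ht1 t2 ht2 hm1 hm2 hm3 using hP
  refine ⟨b, fun j => (W j).length + t1 j, fun j => (W j).length + t2 j, hb, ?_, ?_, ?_⟩
  all_goals
    have hsum : (∑' j : ℕ, ENNReal.ofReal ((1 / 2 : ℝ) ^ j)) ≠ ⊤ := by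
      rw [← ENNReal.ofReal_tsum_of_nonneg (fun _ => by positivity) summable_geometric_two]
      exact ENNReal.ofReal_ne_top
  · have hbc := ae_eventually_notMem (μ := (volume : Measure ℝ))
      (ne_top_of_le_ne_top hsum (ENNReal.tsum_le_tsum fun j => hm1 j))
    filter_upwards [hbc] with E h1 hE
    refine tendsto_atTop_mono' atTop ?_ (tendsto_natCast_atTop_atTop (R := ℝ))
    filter_upwards [h1, eventually_ge_atTop ⌈-E⌉₊] with j hj hj2
    by_contra hcon
    push Not at hcon
    apply hj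
    refine ⟨⟨?_, hE⟩, ?_⟩
    · have := Nat.ceil_le.1 hj2
      linarith
    · rw [pT_eq, hrange j _ (ht1 j)] at hcon
      exact hcon
  · have hbc := ae_eventually_notMem (μ := (volume : Measure ℝ))
      (ne_top_of_le_ne_top hsum (ENNReal.tsum_le_tsum fun j => hm2 j))
    filter_upwards [hbc] with E h1 hE
    refine tendsto_atTop_mono' atTop ?_ (tendsto_natCast_atTop_atTop (R := ℝ))
    filter_upwards [h1, eventually_ge_atTop ⌈E⌉₊] with j hj hj2
    by_contra hcon
    push Not at hcon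
    apply hj
    refine ⟨⟨hE, ?_⟩, ?_⟩
    · exact Nat.ceil_le.1 hj2
    · rw [pT_eq, hrange j _ (ht2 j)] at hcon
      exact hcon
  · have hbc := ae_eventually_notMem (μ := (volume : Measure ℝ))
      (ne_top_of_le_ne_top hsum (ENNReal.tsum_le_tsum fun j => hm3 j))
    filter_upwards [hbc] with θ h1 hθ
    filter_upwards [h1] with j hj
    have h4 : ∃ t ≤ (X j).length, ∀ i k : Fin 2,
        |(Tw (2 * Real.cos θ + s j) (W j ++ (X j).take t)) i k| ≤
          4 * (1 + 1 / Real.sin (Real.pi / 8)) * (1 + C1) := by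
      by_contra hcon
      exact hj ⟨hθ, hcon⟩
    obtain ⟨t, ht, h5⟩ := h4
    refine ⟨(W j).length + t, ?_, ?_⟩
    · have := hlen j
      omega
    · rw [pT_eq, hrange j t ht]
      exact h5

end Pool.Agent.TH310.JS
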