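import Pool.Agent.TH310.JS.Asm

set_option autoImplicit false

/-! The potential: growth for all energies, recurrence on a large interval. -/

namespace Pool.Agent.TH310.JS

open MeasureTheory Filter Set Topology
open Pool.Agent.H508R3.SC Pool.Agent.H116R3.SC8

lemma cos_bounds : 2 * Real.cos (3 * Real.pi / 8) ≤ 0.8 ∧ 1.8 ≤ 2 * Real.cos (Real.pi / 8) := by
  have h1 : Real.cos (3 * Real.pi / 8) = Real.sin (Real.pi / 8) := by
    rw [← Real.cos_pi_div_two_sub]
    congr 1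
    ring
  have s2 : Real.sqrt 2 ≤ 1.415 := by
    rw [Real.sqrt_le_left (by norm_num)]
    norm_num
  have s2' : 1.41 ≤ Real.sqrt 2 := by
    rw [Real.le_sqrt (by norm_num) (by norm_num)]
    norm_num
  constructor
  · rw [h1, Real.sin_pi_div_eight]
    have : Real.sqrt (2 - Real.sqrt 2) ≤ 0.8 := by
      rw [Real.sqrt_le_left (by norm_num)]
      norm_num
      linarith
    linarith
  · rw [Real.cos_pi_div_eight]
    have : 1.8 ≤ Real.sqrt (2 + Real.sqrt 2) := by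
      rw [Real.le_sqrt (by norm_num) (by linarith)]
      norm_num
      linarith
    linarith

theorem univ_ex : ∃ C1 : ℝ, Univ C1 := by
  obtain ⟨C1, hU⟩ := universal_block
  exact ⟨C1, fun M ε hε => hU M ε hε⟩

theorem potential : ∃ C : ℝ, ∀ A : ℝ, ∃ (b : ℕ → ℝ) (B : ℝ) (n1 n2 : ℕ → ℕ), (∀ n, |b n| ≤ B) ∧
      (∀ᵐ E ∂(volume : Measure ℝ), E ≤ 2 → Tendsto (fun j =>
        (Pool.Agent.H116R3.SC8.pT b E (n1 j)) 0 0 ^ 2 +
        (Pool.Agent.H116R3.SC8.pT b E (n1 j)) 1 0 ^ 2) atTop atTop) ∧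
      (∀ᵐ E ∂(volume : Measure ℝ), -2 ≤ E → Tendsto (fun j =>
        (Pool.Agent.H116R3.SC8.pT b E (n2 j)) 0 0 ^ 2 +
        (Pool.Agent.H116R3.SC8.pT b E (n2 j)) 1 0 ^ 2) atTop atTop) ∧
      (∀ᵐ E ∂(volume : Measure ℝ), E ∈ Icc (-A) A → ∃ᶠ n in atTop, ∀ i k : Fin 2,
        |(Pool.Agent.H116R3.SC8.pT b E n) i k| ≤ C) := by
  obtain ⟨C1, hU⟩ := univ_ex
  refine ⟨4 * (1 + 1 / Real.sin (Real.pi / 8)) * (1 + C1), fun A => ?_⟩
  set m : ℕ := ⌈A⌉₊ + 2 with hm
  have hAm : A + 2 ≤ m := by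
    rw [hm]
    push_cast
    linarith [Nat.le_ceil A]
  set s : ℕ → ℝ := fun j => ((j % (2 * m + 1) : ℕ) : ℝ) - m with hs
  have hsb : ∀ j, |s j| ≤ m := by
    intro j
    have h1 : j % (2 * m + 1) < 2 * m + 1 := Nat.mod_lt _ (by omega)
    have h2 : ((j % (2 * m + 1) : ℕ) : ℝ) ≤ 2 * m := by
      have : j % (2 * m + 1) ≤ 2 * m := by omega
      exact_mod_cast this
    have h3 : (0 : ℝ) ≤ ((j % (2 * m + 1) : ℕ) : ℝ) := Nat.cast_nonneg _
    rw [hs, abs_le]
    constructor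
    · simp only; linarith
    · simp only; linarith
  obtain ⟨b, n1, n2, hb, h1, h2, h3⟩ := assembly C1 hU m s hsb
  refine ⟨b, m + 11, n1, n2, hb, h1, h2, ?_⟩
  set C : ℝ := 4 * (1 + 1 / Real.sin (Real.pi / 8)) * (1 + C1) with hC
  -- each shifted window
  have key : ∀ r : ℕ, ∀ᵐ E ∂(volume : Measure ℝ), r ≤ 2 * m → E - ((r : ℝ) - m) ∈ Icc (0.8 : ℝ) 1.8 →
      ∃ᶠ n in atTop, ∀ i k : Fin 2, |(Pool.Agent.H116R3.SC8.pT b E n) i k| ≤ C := by
    intro r
    rw [ae_iff] at h3 ⊢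
    have himg := addHaar_image_eq_zero_of_differentiableOn_of_addHaar_eq_zero
      (μ := (volume : Measure ℝ)) (f := fun θ : ℝ => 2 * Real.cos θ + ((r : ℝ) - m))
      (((Real.differentiable_cos.const_mul 2).add_const _).differentiableOn) h3
    refine measure_mono_null ?_ himg
    intro E hE
    simp only [Set.mem_setOf_eq, Classical.not_imp] at hE
    obtain ⟨hr, hE1, hE2⟩ := hE
    set F : ℝ := E - ((r : ℝ) - m) with hF
    have hpi := Real.pi_pos
    have hE3 : F / 2 ≤ Real.cos (Real.pi / 8) := by linarith [hE1.2, cos_bounds.2]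
    have hE4 : Real.cos (3 * Real.pi / 8) ≤ F / 2 := by linarith [hE1.1, cos_bounds.1]
    have hcos : Real.cos (Real.arccos (F / 2)) = F / 2 := by
      apply Real.cos_arccos
      · exact (Real.neg_one_le_cos _).trans hE4
      · exact hE3.trans (Real.cos_le_one _)
    have hmem : Real.arccos (F / 2) ∈ TH := by
      constructor
      · have h1 := Real.arccos_le_arccos hE3
        rwa [Real.arccos_cos (by linarith) (by linarith)] at h1
      · have h1 := Real.arccos_le_arccos hE4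
        rwa [Real.arccos_cos (by linarith) (by linarith)] at h1
    have h2E : 2 * Real.cos (Real.arccos (F / 2)) + ((r : ℝ) - m) = E := by
      rw [hcos, hF]; ring
    refine ⟨Real.arccos (F / 2), ?_, h2E⟩
    simp only [Set.mem_setOf_eq, Classical.not_imp]
    refine ⟨hmem, fun hev => hE2 ?_⟩
    obtain ⟨j0, hj0⟩ := eventually_atTop.1 hev
    rw [frequently_atTop]
    intro N
    set j : ℕ := r + (2 * m + 1) * (max j0 N) with hj
    have hjj : j0 ≤ j ∧ N ≤ j := by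
      have h5 : max j0 N ≤ (2 * m + 1) * max j0 N := Nat.le_mul_of_pos_left _ (by omega)
      have h6 := le_max_left j0 N
      have h7 := le_max_right j0 N
      omega
    have hsj : s j = (r : ℝ) - m := by
      rw [hs]
      simp only
      rw [hj, Nat.add_mul_mod_self_left, Nat.mod_eq_of_lt (by omega)]
    obtain ⟨n, hn1, hn2⟩ := hj0 j hjj.1
    refine ⟨n, by omega, ?_⟩
    rw [hsj, h2E] at hn2
    exact hn2
  filter_upwards [ae_all_iff.2 key] with E hE hEA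
  have hc1 : E - 1.8 ≤ ⌈E - 1.8⌉ := Int.le_ceil _
  have hc2 : (⌈E - 1.8⌉ : ℝ) < E - 1.8 + 1 := Int.ceil_lt_add_one _
  have hr0 : 0 ≤ ⌈E - 1.8⌉ + m := by
    have : (-(m : ℝ)) ≤ ⌈E - 1.8⌉ := by linarith [hEA.1]
    have h5 : (-(m : ℤ)) ≤ ⌈E - 1.8⌉ := by exact_mod_cast this
    linarith
  obtain ⟨r, hr⟩ := Int.eq_ofNat_of_zero_le hr0
  have hr' : (r : ℝ) = ⌈E - 1.8⌉ + m := by
    have : ((r : ℤ) : ℝ) = ((⌈E - 1.8⌉ + m : ℤ) : ℝ) := by rw [hr]
    push_cast at this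
    exact this
  refine hE r ?_ ⟨?_, ?_⟩
  · have : (r : ℝ) ≤ 2 * m := by rw [hr']; linarith [hEA.2]
    exact_mod_cast this
  · rw [hr']; norm_num at *; linarith
  · rw [hr']; linarith

end Pool.Agent.TH310.JS
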