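import Pool.Agent.H508R3.SC10

set_option autoImplicit false

/-! Growth of solutions behind a barrier, for all energies of a half line. -/

namespace Pool.Agent.TH310.JS

open MeasureTheory Filter Set Topology
open Pool.Agent.H508R3.SC Pool.Agent.H116R3.SC6

/-- growth behind a high barrier, energies below `2` -/
theorem growthE (v : ℝ → ℝ × ℝ) (hv : Measurable v) (hne : ∀ E, v E ≠ 0) (R Λ ε : ℝ)
    (hε : 0 < ε) :
    ∃ c : ℝ, 10 ≤ c ∧ c ≤ 11 ∧ ∃ l : ℕ,
      volume {E ∈ Set.Icc (-R) 2 |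
        ((Am (E - c) ^ l) 0 0 * (v E).1 + (Am (E - c) ^ l) 0 1 * (v E).2) ^ 2 +
        ((Am (E - c) ^ l) 1 0 * (v E).1 + (Am (E - c) ^ l) 1 1 * (v E).2) ^ 2 < Λ} ≤
        ENNReal.ofReal ε := by
  set TH : Set ℝ := Set.Icc (-R) 2 with hTH
  have x_le' : ∀ {E c : ℝ}, E ∈ TH → 10 ≤ c → E - c ≤ -8 := by
    intro E c hE hc
    have := hE.2
    linarith
  let f : ℝ → ℝ → ℝ := fun c E => (v E).1 - mu (E - c) * (v E).2
  have hf : ∀ c, Measurable (f c) := by
    intro c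
    have h1 : Measurable (fun E : ℝ => mu (E - c)) :=
      (mu_cont.comp (continuous_id.sub continuous_const)).measurable
    exact (measurable_fst.comp hv).sub (h1.mul (measurable_snd.comp hv))
  let cc : ℕ → ℝ := fun i => 10 + 1 / ((i : ℝ) + 1)
  have hcc1 : ∀ i, 10 ≤ cc i := fun i => by
    have : (0 : ℝ) ≤ 1 / ((i : ℝ) + 1) := by positivity
    simp only [cc]; linarith
  have hcc2 : ∀ i, cc i ≤ 11 := fun i => by
    have : 1 / ((i : ℝ) + 1) ≤ 1 := by
      rw [div_le_one (by positivity)]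
      have : (0 : ℝ) ≤ (i : ℝ) := Nat.cast_nonneg i
      linarith
    simp only [cc]; linarith
  have hinj : Function.Injective cc := by
    intro i j hij
    simp only [cc, add_right_inj, one_div, inv_inj, add_left_inj, Nat.cast_inj] at hij
    exact hij
  let B : ℕ → Set ℝ := fun i => TH ∩ {E | f (cc i) E = 0}
  have hBm : ∀ i, MeasurableSet (B i) := fun i =>
    measurableSet_Icc.inter (hf (cc i) (measurableSet_singleton 0))
  have hdisj : Pairwise (Function.onFun Disjoint B) := by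
    intro i j hij
    rw [Function.onFun, Set.disjoint_left]
    rintro E ⟨hE, h1⟩ ⟨_, h2⟩
    simp only [Set.mem_setOf_eq, f] at h1 h2
    apply hij
    apply hinj
    have hv2 : (v E).2 ≠ 0 := by
      intro h0
      rw [h0, mul_zero, sub_zero] at h1
      exact hne E (Prod.ext h1 h0)
    have h3 : mu (E - cc i) = mu (E - cc j) := by
      have : (mu (E - cc i) - mu (E - cc j)) * (v E).2 = 0 := by
        linarith
      rcases mul_eq_zero.1 this with h | h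
      · linarith
      · exact absurd h hv2
    have h4 := mu_inj (x_le' hE (hcc1 i)) (x_le' hE (hcc1 j)) h3
    linarith
  have hfin : volume TH ≠ ⊤ := by
    rw [hTH, Real.volume_Icc]
    exact ENNReal.ofReal_ne_top
  have hsum : ∑' i, volume (B i) ≠ ⊤ := by
    rw [← measure_iUnion hdisj hBm]
    exact ne_top_of_le_ne_top hfin (measure_mono (Set.iUnion_subset fun i => Set.inter_subset_left))
  have htend := ENNReal.tendsto_atTop_zero_of_tsum_ne_top hsum
  have hpos : (0 : ENNReal) < ENNReal.ofReal ε := ENNReal.ofReal_pos.2 hε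
  obtain ⟨i, hi⟩ := (htend.eventually (gt_mem_nhds hpos)).exists
  refine ⟨cc i, hcc1 i, hcc2 i, ?_⟩
  let D : ℕ → Set ℝ := fun l => TH ∩ {E | (4 : ℝ) ^ l * (f (cc i) E) ^ 2 < 2 * Λ}
  have hDm : ∀ l, MeasurableSet (D l) := fun l =>
    measurableSet_Icc.inter (measurableSet_lt (((hf (cc i)).pow_const 2).const_mul _)
      measurable_const)
  have hDanti : Antitone D := by
    intro l m hlm E hE
    have h5 : (4 : ℝ) ^ m * (f (cc i) E) ^ 2 < 2 * Λ := hE.2
    have h6 : (4 : ℝ) ^ l * (f (cc i) E) ^ 2 ≤ (4 : ℝ) ^ m * (f (cc i) E) ^ 2 :=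
      mul_le_mul_of_nonneg_right (pow_le_pow_right₀ (by norm_num) hlm) (sq_nonneg _)
    have h7 : (4 : ℝ) ^ l * (f (cc i) E) ^ 2 < 2 * Λ := lt_of_le_of_lt h6 h5
    exact ⟨hE.1, h7⟩
  have hDfin : ∃ l, volume (D l) ≠ ⊤ :=
    ⟨0, ne_top_of_le_ne_top hfin (measure_mono Set.inter_subset_left)⟩
  have hlim := tendsto_measure_iInter_atTop (μ := (volume : Measure ℝ))
    (fun l => (hDm l).nullMeasurableSet) hDanti hDfin
  have hsub : (⋂ l, D l) ⊆ B i := by
    intro E hE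
    rw [Set.mem_iInter] at hE
    refine ⟨(hE 0).1, ?_⟩
    by_contra h0
    have hsq : 0 < (f (cc i) E) ^ 2 := by
      have : f (cc i) E ≠ 0 := h0
      positivity
    obtain ⟨l, hl⟩ := pow_unbounded_of_one_lt (2 * Λ / (f (cc i) E) ^ 2)
      (by norm_num : (1 : ℝ) < 4)
    rw [div_lt_iff₀ hsq] at hl
    exact absurd (hE l).2 (not_lt.2 hl.le)
  have hlt : volume (⋂ l, D l) < ENNReal.ofReal ε := lt_of_le_of_lt (measure_mono hsub) hi
  obtain ⟨l, hl⟩ := (hlim.eventually (gt_mem_nhds hlt)).exists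
  refine ⟨l, le_trans (measure_mono ?_) hl.le⟩
  rintro E ⟨hE, h⟩
  refine ⟨hE, ?_⟩
  have h1 := lower (x_le' hE (hcc1 i)) l (v E).1 (v E).2
  show (4 : ℝ) ^ l * ((v E).1 - mu (E - cc i) * (v E).2) ^ 2 < 2 * Λ
  linarith

/-- the reflected one step matrix -/
lemma Am_neg_pow (x : ℝ) (l : ℕ) : ∃ s : ℝ, s ^ 2 = 1 ∧
    (Am (-x) ^ l) 0 0 = s * (Am x ^ l) 0 0 ∧ (Am (-x) ^ l) 0 1 = -(s * (Am x ^ l) 0 1) ∧
    (Am (-x) ^ l) 1 0 = -(s * (Am x ^ l) 1 0) ∧ (Am (-x) ^ l) 1 1 = s * (Am x ^ l) 1 1 := by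
  induction l with
  | zero => exact ⟨1, by norm_num, by simp, by simp, by simp, by simp⟩
  | succ l ih =>
    obtain ⟨s, hs, h00, h01, h10, h11⟩ := ih
    have a00 : ∀ y, Am y 0 0 = y := fun y => by simp [Am]
    have a01 : ∀ y, Am y 0 1 = -1 := fun y => by simp [Am]
    have a10 : ∀ y, Am y 1 0 = 1 := fun y => by simp [Am]
    have a11 : ∀ y, Am y 1 1 = 0 := fun y => by simp [Am]
    refine ⟨-s, by rw [neg_sq]; exact hs, ?_, ?_, ?_, ?_⟩ <;>
    · rw [pow_succ, pow_succ, Matrix.mul_apply, Matrix.mul_apply, Fin.sum_univ_two,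
        Fin.sum_univ_two]
      simp only [a00, a01, a10, a11, h00, h01, h10, h11]
      ring

/-- growth behind a low barrier, energies above `-2` -/
theorem growthE' (v : ℝ → ℝ × ℝ) (hv : Measurable v) (hne : ∀ E, v E ≠ 0) (R Λ ε : ℝ)
    (hε : 0 < ε) :
    ∃ c : ℝ, 10 ≤ c ∧ c ≤ 11 ∧ ∃ l : ℕ,
      volume {E ∈ Set.Icc (-2) R |
        ((Am (E - -c) ^ l) 0 0 * (v E).1 + (Am (E - -c) ^ l) 0 1 * (v E).2) ^ 2 +
        ((Am (E - -c) ^ l) 1 0 * (v E).1 + (Am (E - -c) ^ l) 1 1 * (v E).2) ^ 2 < Λ} ≤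
        ENNReal.ofReal ε := by
  obtain ⟨c, hc1, hc2, l, hl⟩ := growthE (fun F => ((v (-F)).1, -(v (-F)).2))
    ((hv.comp measurable_neg).fst.prodMk (hv.comp measurable_neg).snd.neg)
    (by
      intro F h
      apply hne (-F)
      have h1 : (v (-F)).1 = 0 := congrArg Prod.fst h
      have h2 : -(v (-F)).2 = 0 := congrArg Prod.snd h
      exact Prod.ext h1 (neg_eq_zero.1 h2)) R Λ ε hε
  refine ⟨c, hc1, hc2, l, ?_⟩
  rw [← Measure.measure_neg] at hl
  refine (measure_mono ?_).trans hl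
  rintro E ⟨hE, h⟩
  rw [Set.mem_neg]
  refine ⟨⟨by linarith [hE.2], by linarith [hE.1]⟩, ?_⟩
  simp only [neg_neg]
  obtain ⟨s, hs, h00, h01, h10, h11⟩ := Am_neg_pow (-E - c) l
  have hx : -(-E - c) = E - -c := by ring
  rw [hx] at h00 h01 h10 h11
  rw [h00, h01, h10, h11] at h
  have e1 : (s * (Am (-E - c) ^ l) 0 0 * (v E).1 + -(s * (Am (-E - c) ^ l) 0 1) * (v E).2) ^ 2 +
      (-(s * (Am (-E - c) ^ l) 1 0) * (v E).1 + s * (Am (-E - c) ^ l) 1 1 * (v E).2) ^ 2 =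
      s ^ 2 * (((Am (-E - c) ^ l) 0 0 * (v E).1 + (Am (-E - c) ^ l) 0 1 * -(v E).2) ^ 2 +
      ((Am (-E - c) ^ l) 1 0 * (v E).1 + (Am (-E - c) ^ l) 1 1 * -(v E).2) ^ 2) := by ring
  rw [e1, hs, one_mul] at h
  exact h

end Pool.Agent.TH310.JS
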