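import Pool.Agent.TH310.JS.Fin

set_option autoImplicit false

/-! Spectral measures of half line Schroedinger operators: moments, uniqueness, singularity. -/

namespace Pool.Agent.TH310.JS

open MeasureTheory Filter Set Topology

/-- two compactly supported finite measures with the same moments agree -/
theorem ext_moments (μ ν : Measure ℝ) [IsFiniteMeasure μ] [IsFiniteMeasure ν] (R : ℝ)
    (hμ : μ {x | R < |x|} = 0) (hν : ν {x | R < |x|} = 0)
    (h : ∀ k : ℕ, ∫ x, x ^ k ∂μ = ∫ x, x ^ k ∂ν) : μ = ν := by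
  have key : ∀ (ρ : Measure ℝ), IsFiniteMeasure ρ → ρ {x | R < |x|} = 0 → ∀ f : ℝ → ℝ,
      Continuous f → Integrable f ρ := by
    intro ρ hf hρ f hfc
    have hae : ∀ᵐ x ∂ρ, x ∈ Icc (-R) R := by
      rw [ae_iff]
      refine measure_mono_null ?_ hρ
      intro x hx
      simp only [Set.mem_setOf_eq, Set.mem_Icc, not_and_or, not_le] at hx ⊢
      rcases hx with h1 | h1
      · exact lt_abs.2 (Or.inr (by linarith))
      · exact lt_abs.2 (Or.inl h1)
    obtain ⟨K, hK⟩ := isCompact_Icc.exists_bound_of_continuousOn (s := Icc (-R) R) hfc.continuousOn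
    exact Integrable.of_bound hfc.aestronglyMeasurable K (hae.mono fun x hx => hK x hx)
  have poly : ∀ p : Polynomial ℝ, ∫ x, p.eval x ∂μ = ∫ x, p.eval x ∂ν := by
    intro p
    have e : ∀ (ρ : Measure ℝ), IsFiniteMeasure ρ → ρ {x | R < |x|} = 0 →
        ∫ x, p.eval x ∂ρ = ∑ i ∈ Finset.range (p.natDegree + 1), p.coeff i * ∫ x, x ^ i ∂ρ := by
      intro ρ hf hρ
      simp_rw [Polynomial.eval_eq_sum_range]
      rw [integral_finset_sum]
      · refine Finset.sum_congr rfl fun i _ => ?_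
        rw [integral_const_mul]
      · intro i _
        exact key ρ hf hρ _ (continuous_const.mul (continuous_pow i))
    rw [e μ inferInstance hμ, e ν inferInstance hν]
    simp_rw [h]
  apply ext_of_forall_integral_eq_of_IsFiniteMeasure
  intro f
  refine eq_of_forall_dist_le fun ε hε => ?_
  set T : ℝ := μ.real univ + ν.real univ + 1 with hT
  have hT0 : 0 < T := by positivity
  obtain ⟨p, hp⟩ := exists_polynomial_near_of_continuousOn (-R) R f f.continuous.continuousOn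
    (ε / T) (by positivity)
  have e : ∀ (ρ : Measure ℝ), IsFiniteMeasure ρ → ρ {x | R < |x|} = 0 →
      |∫ x, f x ∂ρ - ∫ x, p.eval x ∂ρ| ≤ ε / T * ρ.real univ := by
    intro ρ hf hρ
    have hae : ∀ᵐ x ∂ρ, x ∈ Icc (-R) R := by
      rw [ae_iff]
      refine measure_mono_null ?_ hρ
      intro x hx
      simp only [Set.mem_setOf_eq, Set.mem_Icc, not_and_or, not_le] at hx ⊢
      rcases hx with h1 | h1
      · exact lt_abs.2 (Or.inr (by linarith))
      · exact lt_abs.2 (Or.inl h1)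
    rw [← integral_sub (key ρ hf hρ _ f.continuous) (key ρ hf hρ _ p.continuous),
      ← Real.norm_eq_abs]
    refine norm_integral_le_of_norm_le_const (hae.mono fun x hx => ?_)
    rw [Real.norm_eq_abs, abs_sub_comm]
    exact (hp x hx).le
  have e1 := e μ inferInstance hμ
  have e2 := e ν inferInstance hν
  rw [poly p] at e1
  rw [Real.dist_eq]
  have e3 : |∫ x, f x ∂μ - ∫ x, f x ∂ν| ≤ ε / T * μ.real univ + ε / T * ν.real univ := by
    have := abs_sub_le (∫ x, f x ∂μ) (∫ x, p.eval x ∂ν) (∫ x, f x ∂ν)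
    rw [abs_sub_comm (∫ x, p.eval x ∂ν)] at this
    linarith
  refine e3.trans ?_
  rw [← mul_add, div_mul_eq_mul_div, div_le_iff₀ hT0]
  have : μ.real univ + ν.real univ ≤ T := by rw [hT]; linarith
  exact mul_le_mul_of_nonneg_left this hε.le

/-- the Jacobi operator `(J u)_n = a_n u_{n+1} + b_n u_n + a_{n-1} u_{n-1}` for `n ≥ 1`,
on sequences with `u_0 = 0` -/
def jac (a b : ℕ → ℝ) (u : ℕ → ℝ) : ℕ → ℝ := fun n =>
  if n = 0 then 0 else a n * u (n + 1) + b n * u n + a (n - 1) * u (n - 1)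

/-- the sequence `δ_1` -/
def del : ℕ → ℝ := fun n => if n = 1 then 1 else 0

open Pool.Agent.H725R3.SC7 in
lemma pow_coord (b : ℕ → ℝ) {C : ℝ} (hb : ∀ m, |b m| ≤ C) (b' : ℕ → ℝ)
    (hbb : ∀ n, b n = b' (n + 1)) (k : ℕ) :
    (((jac (fun _ => 1) b')^[k] del) 0 = 0) ∧
    ∀ n, (((HH b hb) ^ k) (ee 0)) n = ((((jac (fun _ => 1) b')^[k] del) (n + 1) : ℝ) : ℂ) := by
  induction k with
  | zero =>
    refine ⟨by simp [del], fun n => ?_⟩
    rw [pow_zero, one_apply_eq_self, ee_apply]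
    by_cases h : n = 0
    · subst h; simp [del]
    · rw [if_neg h]; simp [del, h]
  | succ k ih =>
    obtain ⟨ih0, ih⟩ := ih
    rw [Function.iterate_succ_apply']
    refine ⟨by simp [jac], fun n => ?_⟩
    have hj : jac (fun _ => 1) b' ((jac (fun _ => 1) b')^[k] del) (n + 1) =
        (jac (fun _ => 1) b')^[k] del (n + 1 + 1) + b' (n + 1) * (jac (fun _ => 1) b')^[k] del (n + 1) +
          (jac (fun _ => 1) b')^[k] del n := by
      simp [jac]
    rw [pow_succ', mul_apply_eq_comp, coord, ih (n + 1), ih n, hj, ← hbb]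
    by_cases h : n = 0
    · subst h
      rw [ih0]
      simp
    · obtain ⟨m, rfl⟩ := Nat.exists_eq_succ_of_ne_zero h
      have e1 := ih m
      simp only [Nat.succ_eq_add_one, Nat.add_sub_cancel, if_neg (Nat.succ_ne_zero m), e1]
      push_cast
      ring

open Pool.Agent.H725R3.SC7 in
theorem spectral (b : ℕ → ℝ) {C : ℝ} (hb : ∀ m, |b m| ≤ C) (b' : ℕ → ℝ)
    (hbb : ∀ n, b n = b' (n + 1)) (n1 n2 : ℕ → ℕ)
    (h1 : ∀ᵐ E ∂(volume : Measure ℝ), E ≤ 2 → Tendsto (fun j =>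
        (Pool.Agent.H116R3.SC8.pT b E (n1 j)) 0 0 ^ 2 +
        (Pool.Agent.H116R3.SC8.pT b E (n1 j)) 1 0 ^ 2) atTop atTop)
    (h2 : ∀ᵐ E ∂(volume : Measure ℝ), -2 ≤ E → Tendsto (fun j =>
        (Pool.Agent.H116R3.SC8.pT b E (n2 j)) 0 0 ^ 2 +
        (Pool.Agent.H116R3.SC8.pT b E (n2 j)) 1 0 ^ 2) atTop atTop) :
    ∃ μ : Measure ℝ, IsFiniteMeasure μ ∧ (∃ R : ℝ, μ {x | R < |x|} = 0) ∧
      (∀ k : ℕ, ∫ x, x ^ k ∂μ = ((jac (fun _ => 1) b')^[k] del) 1) ∧ μ ⟂ₘ volume := by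
  have hfin : IsFiniteMeasure (mu b hb) := Pool.Agent.H54R3.Spec508.mu_fin _ _
  refine ⟨mu b hb, hfin, ⟨‖HH b hb‖, Pool.Agent.H54R3.Spec508.mu_out _ _⟩, ?_, ?_⟩
  · intro k
    have e1 := (momg (HH_sa b hb) (ee 0) k).2
    rw [inner_ee, (pow_coord b hb b' hbb k).2 0] at e1
    exact_mod_cast e1
  · have g1 := rn_zero b hb (Iic 2) n1 ((ae_restrict_iff' measurableSet_Iic).2 h1)
    have g2 := rn_zero b hb (Ici (-2)) n2 ((ae_restrict_iff' measurableSet_Ici).2 h2)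
    rw [ae_restrict_iff' measurableSet_Iic] at g1
    rw [ae_restrict_iff' measurableSet_Ici] at g2
    rw [← Measure.rnDeriv_eq_zero]
    filter_upwards [g1, g2] with E e1 e2
    rcases le_total E 2 with h | h
    · exact e1 h
    · exact e2 (by rw [mem_Ici]; linarith)

/-- the `k`-th one step transfer matrix, with the convention `a_0 = 1` -/
noncomputable def stepM (a b : ℕ → ℝ) (E : ℝ) (k : ℕ) : Matrix (Fin 2) (Fin 2) ℝ :=
  (a k)⁻¹ • !![E - b k, -(if k = 1 then 1 else a (k - 1)); a k, 0]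

/-- the transfer matrix `T_E(n) = A_n(E) ⋯ A_1(E)` -/
noncomputable def transfer (a b : ℕ → ℝ) (E : ℝ) : ℕ → Matrix (Fin 2) (Fin 2) ℝ
  | 0 => 1
  | n + 1 => stepM a b E (n + 1) * transfer a b E n

lemma transfer_eq (b b' : ℕ → ℝ) (hbb : ∀ n, b n = b' (n + 1)) (E : ℝ) (n : ℕ) :
    transfer (fun _ => 1) b' E n = Pool.Agent.H116R3.SC8.pT b E n := by
  induction n with
  | zero => simp [transfer, Pool.Agent.H116R3.SC8.pT]
  | succ n ih =>
    have h := Pool.Agent.H725R3.SC7.pT_succ b E n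
    have h' : Pool.Agent.H116R3.SC8.pT b E (n + 1) =
      !![E - b n, -1; 1, 0] * Pool.Agent.H116R3.SC8.pT b E n := h
    rw [transfer, ih, h', hbb, stepM]
    simp

/-- the main theorem -/
theorem main : ∃ C : ℝ, ∀ A : ℝ, ∃ (b : ℕ → ℝ) (μ : Measure ℝ), (∃ B : ℝ, ∀ n, |b n| ≤ B) ∧
    (IsFiniteMeasure μ ∧ (∃ R : ℝ, μ {x | R < |x|} = 0) ∧
      ∀ k : ℕ, ∫ x, x ^ k ∂μ = ((jac (fun _ => 1) b)^[k] del) 1) ∧ μ ⟂ₘ volume ∧
    ∀ᵐ E ∂(volume.restrict (Icc (-A) A)), ∃ᶠ n in atTop, ∀ i j : Fin 2,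
      |(transfer (fun _ => 1) b E n) i j| ≤ C := by
  obtain ⟨C, hC⟩ := potential
  refine ⟨C, fun A => ?_⟩
  obtain ⟨b, B, n1, n2, hb, h1, h2, h3⟩ := hC A
  have hbb : ∀ n, b n = (fun n => b (n - 1)) (n + 1) := fun n => by simp
  obtain ⟨μ, g1, g2, g3, g4⟩ := spectral b hb (fun n => b (n - 1)) hbb n1 n2 h1 h2
  refine ⟨fun n => b (n - 1), μ, ⟨B, fun n => hb (n - 1)⟩, ⟨g1, g2, g3⟩, g4, ?_⟩
  rw [ae_restrict_iff' measurableSet_Icc]
  filter_upwards [h3] with E hE hEA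
  refine (hE hEA).mono fun n hn i j => ?_
  rw [transfer_eq b _ hbb]
  exact hn i j

end Pool.Agent.TH310.JS
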